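import Pool.Agent.helper97.BG.Main

/-!
# MP_c563ae_ag : the Bogomolov inequality fails on minimal surfaces which lift to `W₂` and
satisfy `c₁² ≤ 2 c₂`

For every algebraically closed field `k` of characteristic two there are a nonsingular
projective surface `S = Proj (⨁ W ^ m)` over `k`, with very ample class `H`, and a torsion-free
sheaf `E` on `S` such that `S` contains no rational curve (so it is minimal), `K_S = κ H`, `S`
lifts to `W₂(k)`, `c₁(S)² ≤ 2 c₂(S)`, `E` is slope semistable with respect to `H`, and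
`Δ(E) < 0`.

The surface is `V_i ^ 5 + V_{i+2} ^ 5 V_{i+3} ^ 5 = 1` (`i` modulo `5`), `y ^ 5 = ∑ c_i V_i ^ 5`, a
Fermat cover of the quintic del Pezzo surface; `E` is the pull back, to this cyclic cover, of the
direct image of the structure sheaf under the Frobenius morphism; its rank is `4`, `κ = 7`,
`c₁(E) = 3 H`, `c₁(S)² = 153125`, `c₂(S) = 109375`, `Δ(E) = -9375`.
-/

universe u

open Pool.Agent.helper97.BG Polynomial in
theorem Pool.Agent.Results.MP_c563ae_ag.BogomolovFails.result
    (k : Type u) [Field k] [IsAlgClosed k] [CharP k 2] :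
    ∃ (K : Type u) (_ : Field K) (_ : Algebra k K) (W : Submodule k K) (𝒲 : Finset K)
      (P : ℚ[X]) (κ : ℕ),
      IsSmoothSurface W 𝒲 ∧ HasHilbertPolynomial (fun m => Module.finrank k ↥(W ^ m)) P ∧
      NoRationalCurve W 𝒲 ∧ IsCanonicalTwist W 𝒲 κ ∧ LiftsToW2 W ∧ c1sq P κ ≤ 2 * c2 P κ ∧
      ∃ (V : Type u) (_ : AddCommGroup V) (_ : Module K V) (_ : Module k V)
        (_ : IsScalarTower k K V) (M : ℕ → Submodule k V) (Q : ℚ[X]) (δ : ℕ),
        IsTorsionFreeSheaf W M ∧ 0 < rank K M ∧
        HasHilbertPolynomial (fun m => Module.finrank k (M m)) Q ∧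
        IsDetTwist W 𝒲 M (rank K M) δ ∧ IsSemistable W M ∧
        discr P κ Q (rank K M) δ < 0 :=
  main k
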